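import Mathlib

/-!
Highly transitive subsets of the symmetric group (MP_c60ead_co).

A subset `Y` of the symmetric group on `Fin n` is `k`-transitive when every ordered `k`-tuple of
distinct points is carried to every other one by the same positive number `r` of elements of `Y`.
We determine for which `k` there is a `k`-transitive subset different from the alternating group,
its complement (the odd permutations) and the whole group: exactly for `k ≤ n - 3`.
In particular there is one for `k = ⌊(n-2)/2⌋`, for every `n ≥ 4`.
-/

namespace Pool.Agent.Results.MP_c60ead_co.Threshold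

open Equiv

/-- `Y ⊆ S_n` is `k`-transitive: `1 ≤ k ≤ n` and for some `r > 0`, for any two `k`-tuples `a`, `b`
of distinct points exactly `r` elements `y ∈ Y` satisfy `y (a i) = b i` for all `i`. -/
def IsKTransitive (n k : ℕ) (Y : Finset (Perm (Fin n))) : Prop :=
  1 ≤ k ∧ k ≤ n ∧ ∃ r : ℕ, 0 < r ∧ ∀ a b : Fin k ↪ Fin n,
    (Y.filter (fun y => ∀ i, y (a i) = b i)).card = r

/-- The alternating group `A_n` as a finite set of permutations. -/
def evenPerms (n : ℕ) : Finset (Perm (Fin n)) :=
  Finset.univ.filter (fun y => Perm.sign y = 1)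

/-- The permutations which carry the tuple `a` to the tuple `b`. -/
def carry {n k : ℕ} (a b : Fin k ↪ Fin n) : Finset (Perm (Fin n)) :=
  Finset.univ.filter (fun y => ∀ i, y (a i) = b i)

lemma mem_carry {n k : ℕ} (a b : Fin k ↪ Fin n) (y : Perm (Fin n)) :
    y ∈ carry a b ↔ ∀ i, y (a i) = b i := by
  simp [carry]

lemma exists_map {n k : ℕ} (a b : Fin k ↪ Fin n) : ∃ g : Perm (Fin n), ∀ i, g (a i) = b i := by
  classical
  -- extend the bijection between the ranges
  let e : {x // x ∈ Set.range a} ≃ {x // x ∈ Set.range b} :=
    (Equiv.ofInjective a a.injective).symm.trans (Equiv.ofInjective b b.injective)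
  refine ⟨Equiv.extendSubtype e, fun i => ?_⟩
  have h : a i ∈ Set.range a := ⟨i, rfl⟩
  rw [Equiv.extendSubtype_apply_of_mem e (a i) h]
  simp only [e, Equiv.trans_apply]
  have : (Equiv.ofInjective a a.injective).symm ⟨a i, h⟩ = i := by
    rw [Equiv.symm_apply_eq]
    rfl
  rw [this]
  rfl

lemma card_carry {n k : ℕ} (a b a' b' : Fin k ↪ Fin n) :
    (carry a b).card = (carry a' b').card := by
  obtain ⟨g, hg⟩ := exists_map a a'
  obtain ⟨h, hh⟩ := exists_map b b'
  refine Finset.card_bij (fun y _ => h * y * g⁻¹) ?_ ?_ ?_
  · intro y hy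
    rw [mem_carry] at hy ⊢
    intro i
    have : g⁻¹ (a' i) = a i := by
      rw [← hg i]; simp
    simp [Perm.mul_apply, this, hy i, hh i]
  · intro y _ z _ hyz
    simpa using hyz
  · intro z hz
    refine ⟨h⁻¹ * z * g, ?_, ?_⟩
    · rw [mem_carry] at hz ⊢
      intro i
      have : h⁻¹ (b' i) = b i := by
        rw [← hh i]; simp
      simp [Perm.mul_apply, hg i, hz i, this]
    · group

/-- The set `{y : y even xor y p = p}`. -/
def mixed (n : ℕ) (p : Fin n) : Finset (Perm (Fin n)) :=
  Finset.univ.filter (fun y => ¬ (Perm.sign y = 1 ↔ y p = p))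

lemma mem_mixed {n : ℕ} (p : Fin n) (y : Perm (Fin n)) :
    y ∈ mixed n p ↔ ¬ (Perm.sign y = 1 ↔ y p = p) := by
  simp [mixed]

lemma mixed_half {n k : ℕ} (p : Fin n) (hk : k + 3 ≤ n) (a b : Fin k ↪ Fin n) :
    2 * ((mixed n p).filter (fun y => ∀ i, y (a i) = b i)).card = (carry a b).card := by
  classical
  -- two points outside of the tuple and different from `p`
  have hcard : 1 < (Finset.univ \ (insert p (Finset.univ.map a)) : Finset (Fin n)).card := by
    have h1 : (insert p (Finset.univ.map a)).card ≤ k + 1 := by
      refine (Finset.card_insert_le _ _).trans ?_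
      simp
    have h2 := Finset.card_sdiff_add_card (s := (Finset.univ : Finset (Fin n)))
      (t := insert p (Finset.univ.map a))
    have h3 : (Finset.univ ∪ insert p (Finset.univ.map a) : Finset (Fin n)).card = n := by
      rw [Finset.union_eq_left.2 (Finset.subset_univ _)]
      simp
    omega
  obtain ⟨x, hx, x', hx', hxx⟩ := Finset.one_lt_card.1 hcard
  simp only [Finset.mem_sdiff, Finset.mem_univ, Finset.mem_insert, Finset.mem_map, true_and,
    not_or, not_exists] at hx hx'
  set τ : Perm (Fin n) := Equiv.swap x x' with hτ
  have hsign : ∀ y : Perm (Fin n), Perm.sign (y * τ) = - Perm.sign y := by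
    intro y
    rw [Perm.sign_mul, hτ, Perm.sign_swap hxx]; simp
  have hp : τ p = p := by
    rw [hτ]
    exact Equiv.swap_apply_of_ne_of_ne (fun h => hx.1 h.symm) (fun h => hx'.1 h.symm)
  have ha : ∀ i, τ (a i) = a i := by
    intro i
    rw [hτ]
    exact Equiv.swap_apply_of_ne_of_ne (hx.2 i) (hx'.2 i)
  -- the map `y ↦ y τ` exchanges the two halves
  have hsplit : (carry a b).card =
      ((carry a b).filter (fun y => y ∈ mixed n p)).card +
      ((carry a b).filter (fun y => ¬ (y ∈ mixed n p))).card := by
    rw [Finset.card_filter_add_card_filter_not]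
  have hone : ((carry a b).filter (fun y => ¬ (y ∈ mixed n p))).card =
      ((carry a b).filter (fun y => y ∈ mixed n p)).card := by
    refine Finset.card_bij (fun y _ => y * τ) ?_ ?_ ?_
    · intro y hy
      rw [Finset.mem_filter, mem_carry, mem_mixed] at hy
      rw [Finset.mem_filter, mem_carry, mem_mixed]
      refine ⟨fun i => by simp [Perm.mul_apply, ha i, hy.1 i], ?_⟩
      have h1 := hy.2
      have h2 : (y * τ) p = y p := by simp [Perm.mul_apply, hp]
      rw [h2, hsign y]
      rcases Int.units_eq_one_or (Perm.sign y) with h | h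
      · rw [h] at h1 ⊢
        have h3 : y p = p := by
          by_contra hc
          exact h1 (by simp [hc])
        simp [h3]
      · rw [h] at h1 ⊢
        have h3 : ¬ (y p = p) := by
          intro hc
          exact h1 (by simp [hc])
        simp [h3]
    · intro y _ z _ hyz
      simpa using hyz
    · intro z hz
      refine ⟨z * τ, ?_, ?_⟩
      · rw [Finset.mem_filter, mem_carry, mem_mixed] at hz
        rw [Finset.mem_filter, mem_carry, mem_mixed]
        refine ⟨fun i => by simp [Perm.mul_apply, ha i, hz.1 i], ?_⟩
        have h1 := hz.2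
        have h2 : (z * τ) p = z p := by simp [Perm.mul_apply, hp]
        rw [h2, hsign z]
        rcases Int.units_eq_one_or (Perm.sign z) with h | h
        · rw [h] at h1 ⊢
          have h3 : ¬ (z p = p) := by
            intro hc
            exact h1 (by simp [hc])
          simp [h3]
        · rw [h] at h1 ⊢
          have h3 : z p = p := by
            by_contra hc
            exact h1 (by simp [hc])
          simp [h3]
      · rw [mul_assoc, hτ, Equiv.swap_mul_self, mul_one]
  have hsame : ((mixed n p).filter (fun y => ∀ i, y (a i) = b i)) =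
      ((carry a b).filter (fun y => y ∈ mixed n p)) := by
    ext y
    rw [Finset.mem_filter, Finset.mem_filter, mem_carry]
    exact and_comm
  rw [hsame, hsplit, hone]
  ring

/-- For `k ≤ n - 3` there is a `k`-transitive set which is none of `S_n`, `A_n`, `S_n \ A_n`. -/
theorem exists_of_le {n k : ℕ} (hk1 : 1 ≤ k) (hk : k + 3 ≤ n) :
    ∃ Y : Finset (Perm (Fin n)), IsKTransitive n k Y ∧ Y ≠ Finset.univ ∧
      Y ≠ evenPerms n ∧ Y ≠ (evenPerms n)ᶜ := by
  classical
  have hn : 0 < n := by omega
  let p : Fin n := ⟨0, hn⟩
  let q : Fin n := ⟨1, by omega⟩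
  let s : Fin n := ⟨2, by omega⟩
  have hid : (1 : Perm (Fin n)) ∉ mixed n p := by
    rw [mem_mixed]; simp
  have hcyc : (Equiv.swap p q * Equiv.swap p s : Perm (Fin n)) ∈ mixed n p := by
    rw [mem_mixed]
    have hpq : p ≠ q := by simp [p, q]
    have hps : p ≠ s := by simp [p, s]
    have hqs : q ≠ s := by simp [q, s]
    have h1 : Perm.sign (Equiv.swap p q * Equiv.swap p s : Perm (Fin n)) = 1 := by
      rw [Perm.sign_mul, Perm.sign_swap hpq, Perm.sign_swap hps]; simp
    have h2 : (Equiv.swap p q * Equiv.swap p s : Perm (Fin n)) p = s := by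
      rw [Perm.mul_apply, Equiv.swap_apply_left]
      exact Equiv.swap_apply_of_ne_of_ne hps.symm hqs.symm
    rw [h2]
    intro h
    exact hps ((h.1 h1).symm)
  refine ⟨mixed n p, ⟨hk1, by omega, ?_⟩, ?_, ?_, ?_⟩
  · let a₀ : Fin k ↪ Fin n := (Fin.castLEEmb (by omega : k ≤ n))
    refine ⟨((mixed n p).filter (fun y => ∀ i, y (a₀ i) = a₀ i)).card, ?_, ?_⟩
    · have h := mixed_half p hk a₀ a₀
      have h1 : 0 < (carry a₀ a₀).card := by
        refine Finset.card_pos.2 ⟨1, ?_⟩
        rw [mem_carry]; intro i; rfl
      omega
    · intro a b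
      have h := mixed_half p hk a₀ a₀
      have h' := mixed_half p hk a b
      have h'' := card_carry a b a₀ a₀
      omega
  · intro h
    exact hid (h ▸ Finset.mem_univ _)
  · intro h
    apply hid
    rw [h]
    simp [evenPerms]
  · intro h
    rw [h] at hcyc
    have hpq : p ≠ q := by simp [p, q]
    have hps : p ≠ s := by simp [p, s]
    simp only [evenPerms, Finset.mem_compl, Finset.mem_filter, Finset.mem_univ, true_and] at hcyc
    apply hcyc
    rw [Perm.sign_mul, Perm.sign_swap hpq, Perm.sign_swap hps]; simp

/-- A tuple whose range is the complement of a set of size `n - k`. -/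
lemma exists_tuple {n k : ℕ} (s : Finset (Fin n)) (hs : s.card = k) :
    ∃ a : Fin k ↪ Fin n, ∀ x, x ∈ s ↔ ∃ i, a i = x := by
  classical
  let e := (s.equivFinOfCardEq hs).symm
  refine ⟨⟨fun i => (e i : Fin n), fun i j h => e.injective (Subtype.ext h)⟩, fun x => ?_⟩
  constructor
  · intro hx
    refine ⟨e.symm ⟨x, hx⟩, ?_⟩
    change ((e (e.symm ⟨x, hx⟩) : {x // x ∈ s}) : Fin n) = x
    rw [Equiv.apply_symm_apply]
  · rintro ⟨i, rfl⟩
    exact (e i).2

theorem trivial_of_ge {n k : ℕ} (hn : 4 ≤ n) (hk : n ≤ k + 2) (Y : Finset (Perm (Fin n)))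
    (hY : IsKTransitive n k Y) :
    Y = Finset.univ ∨ Y = evenPerms n ∨ Y = (evenPerms n)ᶜ := by
  classical
  obtain ⟨hk1, hkn, r, hr, hcount⟩ := hY
  rcases Nat.lt_or_ge (k + 1) n with hlt | hge
  · -- the case `k = n - 2`
    have hk2 : k + 2 = n := by omega
    -- for each `y` and each transposition
    have key : ∀ (y : Perm (Fin n)) (x x' : Fin n), x ≠ x' →
        ((if y ∈ Y then 1 else 0) + (if y * Equiv.swap x x' ∈ Y then 1 else 0) : ℕ) = r := by
      intro y x x' hxx
      have hs : (Finset.univ \ {x, x'} : Finset (Fin n)).card = k := by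
        have h1 := Finset.card_sdiff_add_card_eq_card (Finset.subset_univ ({x, x'} : Finset (Fin n)))
        rw [Finset.card_pair hxx, Finset.card_univ, Fintype.card_fin] at h1
        omega
      obtain ⟨a, ha⟩ := exists_tuple _ hs
      have hc := hcount a (a.trans y.toEmbedding)
      have hset : Y.filter (fun z => ∀ i, z (a i) = (a.trans y.toEmbedding) i) =
          ({y, y * Equiv.swap x x'} : Finset (Perm (Fin n))).filter (fun z => z ∈ Y) := by
        ext z
        simp only [Finset.mem_filter, Finset.mem_insert, Finset.mem_singleton]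
        constructor
        · rintro ⟨hzY, hz⟩
          refine ⟨?_, hzY⟩
          -- `y⁻¹ z` fixes everything but `x`, `x'`
          have hfix : ∀ w, w ≠ x → w ≠ x' → z w = y w := by
            intro w hw hw'
            obtain ⟨i, hi⟩ := (ha w).1 (by simp [hw, hw'])
            have := hz i
            rw [hi] at this
            rw [this, ← hi]
            rfl
          have hx : z x = y x ∨ z x = y x' := by
            obtain ⟨w, hw⟩ := y.surjective (z x)
            by_cases h1 : w = x
            · left; rw [← hw, h1]
            · by_cases h2 : w = x'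
              · right; rw [← hw, h2]
              · exfalso
                rw [← hfix w h1 h2] at hw
                exact h1 (z.injective hw)
          have hx' : z x' = y x ∨ z x' = y x' := by
            obtain ⟨w, hw⟩ := y.surjective (z x')
            by_cases h1 : w = x
            · left; rw [← hw, h1]
            · by_cases h2 : w = x'
              · right; rw [← hw, h2]
              · exfalso
                rw [← hfix w h1 h2] at hw
                exact h2 (z.injective hw)
          rcases hx with h | h
          · left
            have h' : z x' = y x' := by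
              rcases hx' with h' | h'
              · exact absurd (z.injective (h.trans h'.symm)) hxx
              · exact h'
            ext w
            by_cases h1 : w = x
            · rw [h1, h]
            · by_cases h2 : w = x'
              · rw [h2, h']
              · rw [hfix w h1 h2]
          · right
            have h' : z x' = y x := by
              rcases hx' with h' | h'
              · exact h'
              · exact absurd (z.injective (h.trans h'.symm)) hxx
            ext w
            rw [Perm.mul_apply]
            by_cases h1 : w = x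
            · rw [h1, h, Equiv.swap_apply_left]
            · by_cases h2 : w = x'
              · rw [h2, h', Equiv.swap_apply_right]
              · rw [hfix w h1 h2, Equiv.swap_apply_of_ne_of_ne h1 h2]
        · rintro ⟨h | h, hzY⟩
          · subst h
            exact ⟨hzY, fun i => rfl⟩
          · refine ⟨hzY, fun i => ?_⟩
            have hi : a i ∈ (Finset.univ \ {x, x'} : Finset (Fin n)) := (ha _).2 ⟨i, rfl⟩
            simp only [Finset.mem_sdiff, Finset.mem_univ, Finset.mem_insert,
              Finset.mem_singleton, true_and, not_or] at hi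
            rw [h, Perm.mul_apply, Equiv.swap_apply_of_ne_of_ne hi.1 hi.2]
            rfl
      rw [hset] at hc
      have hne : y ≠ y * Equiv.swap x x' := by
        intro h
        have h2 : (Equiv.swap x x') = 1 := by
          have := congrArg (fun z => y⁻¹ * z) h
          simpa using this.symm
        exact hxx (Equiv.swap_eq_one_iff.1 h2)
      rw [← hc, Finset.filter_insert, Finset.filter_singleton]
      by_cases h1 : y ∈ Y <;> by_cases h2 : y * Equiv.swap x x' ∈ Y <;> simp [h1, h2, hne]
    let x₀ : Fin n := ⟨0, by omega⟩
    let x₁ : Fin n := ⟨1, by omega⟩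
    have h01 : x₀ ≠ x₁ := by simp [x₀, x₁]
    by_cases hr2 : r = 2
    · left
      ext y
      simp only [Finset.mem_univ, iff_true]
      by_contra hy
      have := key y x₀ x₁ h01
      rw [if_neg hy, hr2] at this
      split_ifs at this <;> omega
    · right
      have hr1 : r = 1 := by
        have := key 1 x₀ x₁ h01
        split_ifs at this <;> omega
      have step : ∀ (y : Perm (Fin n)) (x x' : Fin n), x ≠ x' →
          (y * Equiv.swap x x' ∈ Y ↔ ¬ (y ∈ Y)) := by
        intro y x x' hxx
        have := key y x x' hxx
        rw [hr1] at this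
        by_cases h1 : y ∈ Y <;> by_cases h2 : y * Equiv.swap x x' ∈ Y <;>
          simp_all
      have hall : ∀ y : Perm (Fin n), (y ∈ Y ↔ (Perm.sign y = 1 ↔ (1 : Perm (Fin n)) ∈ Y)) := by
        intro y
        induction y using Equiv.Perm.swap_induction_on' with
        | one => simp
        | mul_swap f x y hxy ih =>
          rw [step f x y hxy, ih, Perm.sign_mul, Perm.sign_swap hxy]
          rcases Int.units_eq_one_or (Perm.sign f) with h | h
          · rw [h]
            by_cases h1 : (1 : Perm (Fin n)) ∈ Y <;> simp [h1]
          · rw [h]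
            by_cases h1 : (1 : Perm (Fin n)) ∈ Y <;> simp [h1]
      by_cases h1 : (1 : Perm (Fin n)) ∈ Y
      · left
        ext y
        rw [hall y]
        simp [evenPerms, h1]
      · right
        ext y
        rw [hall y]
        simp [evenPerms, h1]
  · -- the case `k ≥ n - 1`
    left
    ext y
    simp only [Finset.mem_univ, iff_true]
    let a : Fin k ↪ Fin n := Fin.castLEEmb hkn
    have hc := hcount a (a.trans y.toEmbedding)
    have hpos : 0 < (Y.filter (fun z => ∀ i, z (a i) = (a.trans y.toEmbedding) i)).card := by
      rw [hc]; exact hr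
    obtain ⟨z, hz⟩ := Finset.card_pos.1 hpos
    rw [Finset.mem_filter] at hz
    have hzy : z = y := by
      have hfix : ∀ w : Fin n, w.val < k → z w = y w := by
        intro w hw
        have := hz.2 ⟨w.val, hw⟩
        have ha : a ⟨w.val, hw⟩ = w := by
          ext; simp [a]
        rw [ha] at this
        rw [this]
        change y (a ⟨w.val, hw⟩) = y w
        rw [ha]
      ext w
      by_cases hw : w.val < k
      · rw [hfix w hw]
      · -- the only remaining point
        obtain ⟨v, hv⟩ := z.surjective (y w)
        by_cases hvk : v.val < k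
        · have := hfix v hvk
          rw [this] at hv
          have hvw := y.injective hv
          rw [hvw] at hvk
          exact absurd hvk hw
        · have hvw : v = w := by
            ext
            have h1 := v.isLt
            have h2 := w.isLt
            omega
          rw [← hv, hvw]
    rw [← hzy]
    exact hz.1

/-- The threshold theorem: for `n ≥ 4` and `1 ≤ k ≤ n` there is a `k`-transitive subset of `S_n`
other than `A_n`, the set of odd permutations and `S_n` if and only if `k ≤ n - 3`. -/
theorem result : ∀ n k : ℕ, 4 ≤ n → 1 ≤ k → k ≤ n →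
    ((∃ Y : Finset (Perm (Fin n)), IsKTransitive n k Y ∧
        Y ≠ evenPerms n ∧ Y ≠ (evenPerms n)ᶜ ∧ Y ≠ Finset.univ) ↔ k ≤ n - 3) := by
  intro n k hn hk1 hkn
  constructor
  · rintro ⟨Y, hY, h1, h2, h3⟩
    by_contra hlt
    rcases trivial_of_ge hn (by omega) Y hY with h | h | h
    · exact h3 h
    · exact h1 h
    · exact h2 h
  · intro hk
    obtain ⟨Y, hY, h1, h2, h3⟩ := exists_of_le (n := n) hk1 (by omega)
    exact ⟨Y, hY, h2, h3, h1⟩

/-- The posed question: its answer is negative, for every `n ≥ 4`. -/
theorem negated_form : ¬ ∃ n₀ : ℕ, ∀ n : ℕ, n₀ ≤ n → ∀ Y : Finset (Perm (Fin n)),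
    IsKTransitive n ((n - 2) / 2) Y →
      (Y = evenPerms n ∨ Y = (evenPerms n)ᶜ ∨ Y = Finset.univ) := by
  rintro ⟨n₀, h⟩
  obtain ⟨Y, hY, h1, h2, h3⟩ :=
    (result (n₀ + 4) ((n₀ + 4 - 2) / 2) (by omega) (by omega) (by omega)).2 (by omega)
  rcases h (n₀ + 4) (by omega) Y hY with h | h | h
  · exact h1 h
  · exact h2 h
  · exact h3 h

end Pool.Agent.Results.MP_c60ead_co.Threshold
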